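import Mathlib
import Pool.Agent.V11219.NormalFunctor

/-!
A finitary skeletal normal functor which is not finitely square-skeletal.
-/

namespace Pool.Agent.Results.MP_2f5a6b_gt.NotSquareSkeletal

open CategoryTheory Topology Set TopologicalSpace Pool.Agent.V11219.CompFunctor

universe u

/-- The commutative square `f ∘ pX = pY ∘ f'` is skeletal: for every `x` in `X` and every (open)
neighbourhood `U` of `x` there is a nonempty open `V ⊆ f U` with `pY⁻¹ V ⊆ f' (pX⁻¹ U)`. -/
def SkeletalSquare {X' Y' X Y : CompHaus.{u}} (f' : X' ⟶ Y') (f : X ⟶ Y) (pX : X' ⟶ X)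
    (pY : Y' ⟶ Y) : Prop :=
  (∀ x, f (pX x) = pY (f' x)) ∧
    ∀ (x : X) (U : Set X), IsOpen U → x ∈ U →
      ∃ V : Set Y, IsOpen V ∧ V.Nonempty ∧ V ⊆ f '' U ∧ pY ⁻¹' V ⊆ f' '' (pX ⁻¹' U)

/-- `F` sends skeletal squares of surjections between compacta to skeletal squares. -/
def SquareSkeletal (F : CompHaus.{u} ⥤ CompHaus.{u}) : Prop :=
  ∀ ⦃X' Y' X Y : CompHaus.{u}⦄ (f' : X' ⟶ Y') (f : X ⟶ Y) (pX : X' ⟶ X) (pY : Y' ⟶ Y),
    Function.Surjective f' → Function.Surjective f → Function.Surjective pX →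
      Function.Surjective pY → SkeletalSquare f' f pX pY →
        SkeletalSquare (F.map f') (F.map f) (F.map pX) (F.map pY)

/-- `F` sends skeletal squares of surjections between finite compacta to skeletal squares. -/
def FinitelySquareSkeletal (F : CompHaus.{u} ⥤ CompHaus.{u}) : Prop :=
  ∀ ⦃X' Y' X Y : CompHaus.{u}⦄ (f' : X' ⟶ Y') (f : X ⟶ Y) (pX : X' ⟶ X) (pY : Y' ⟶ Y),
    Finite X' → Finite Y' → Finite X → Finite Y →
    Function.Surjective f' → Function.Surjective f → Function.Surjective pX →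
      Function.Surjective pY → SkeletalSquare f' f pX pY →
        SkeletalSquare (F.map f') (F.map f) (F.map pX) (F.map pY)

lemma not_finitely : ¬ FinitelySquareSkeletal T.{u} := by
  intro h
  let Q : CompHaus.{u} := CompHaus.of (ULift.{u} Bool × ULift.{u} Bool)
  let B : CompHaus.{u} := CompHaus.of (ULift.{u} Bool)
  let P : CompHaus.{u} := CompHaus.of PUnit.{u + 1}
  let p1 : Q ⟶ B := CompHausLike.ofHom _ ⟨Prod.fst, continuous_fst⟩
  let p2 : Q ⟶ B := CompHausLike.ofHom _ ⟨Prod.snd, continuous_snd⟩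
  let t : B ⟶ P := CompHausLike.ofHom _ ⟨fun _ => PUnit.unit, continuous_const⟩
  have hsq : SkeletalSquare p2 t p1 t := by
    refine ⟨fun _ => rfl, fun x U _ hx => ⟨univ, isOpen_univ, ⟨PUnit.unit, mem_univ _⟩, ?_, ?_⟩⟩
    · rintro y -
      exact ⟨x, hx, rfl⟩
    · rintro y -
      exact ⟨(x, y), hx, rfl⟩
  have hF := h p2 t p1 t (inferInstanceAs (Finite (ULift.{u} Bool × ULift.{u} Bool)))
    (inferInstanceAs (Finite (ULift.{u} Bool))) (inferInstanceAs (Finite (ULift.{u} Bool)))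
    (inferInstanceAs (Finite PUnit)) Prod.snd_surjective (fun _ => ⟨⟨true⟩, rfl⟩)
    Prod.fst_surjective (fun _ => ⟨⟨true⟩, rfl⟩) hsq
  let a : TT (ULift.{u} Bool) := ⟨(⟨false⟩, ⟨true⟩, ⟨false⟩), Or.inr rfl⟩
  let b : TT (ULift.{u} Bool) := ⟨(⟨false⟩, ⟨false⟩, ⟨true⟩), Or.inl rfl⟩
  have hdisc : DiscreteTopology (TT (ULift.{u} Bool)) := inferInstance
  obtain ⟨V, -, ⟨v, hv⟩, -, hV⟩ := hF.2 (show T.obj B from a) {(show T.obj B from a)}
    (@isOpen_discrete _ _ hdisc {a}) rfl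
  have hb : (show T.obj B from b) ∈ T.map t ⁻¹' V := by
    have h1 : T.map t (show T.obj B from b) = v := by
      refine Subtype.ext ?_
      exact Subsingleton.elim (α := PUnit × PUnit × PUnit) _ _
    show T.map t (show T.obj B from b) ∈ V
    rw [h1]
    exact hv
  obtain ⟨⟨⟨u, v, w⟩, hp⟩, hc, hc'⟩ := hV hb
  have h1 : (u.1, v.1, w.1) = ((⟨false⟩, ⟨true⟩, ⟨false⟩) :
      ULift.{u} Bool × ULift.{u} Bool × ULift.{u} Bool) := congrArg Subtype.val hc
  have h2 : (u.2, v.2, w.2) = ((⟨false⟩, ⟨false⟩, ⟨true⟩) :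
      ULift.{u} Bool × ULift.{u} Bool × ULift.{u} Bool) := congrArg Subtype.val hc'
  simp only [Prod.mk.injEq] at h1 h2
  rcases hp with hp | hp
  · have hp' : u = v := hp
    have h3 := h1.1
    rw [hp', h1.2.1] at h3
    exact absurd (congrArg ULift.down h3) (by decide)
  · have hp' : u = w := hp
    have h3 := h2.1
    rw [hp', h2.2.2] at h3
    exact absurd (congrArg ULift.down h3) (by decide)

/-- **There is a finitary skeletal normal functor which is not finitely square-skeletal, hence not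
square-skeletal.** -/
theorem result : ∃ F : CompHaus.{u} ⥤ CompHaus.{u}, Normal F ∧ Finitary F ∧ SkeletalFunctor F ∧
    ¬ FinitelySquareSkeletal F ∧ ¬ SquareSkeletal F :=
  ⟨T, T_normal, T_finitary, T_skeletal, not_finitely,
    fun h => not_finitely fun _ _ _ _ f' f pX pY _ _ _ _ h1 h2 h3 h4 h5 =>
      h f' f pX pY h1 h2 h3 h4 h5⟩

end Pool.Agent.Results.MP_2f5a6b_gt.NotSquareSkeletal
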